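import Pool.Agent.W307.FK.Stm
import Pool.Agent.W405.RS.AVHS

/-! Subtask FK-AVHR (owner helper307): the average of a multiplicative function close to one over a
residue class in a short interval.  Adapted from helper405's file `Pool.Agent.W405.RS.AVHS`. -/

set_option autoImplicit false

namespace Pool.Agent.W991.FK

open Finset Pool.Agent.W405.RS

/-- multiples in a residue class -/
theorem card_cls (N r : ℤ) (X m D : ℕ) (hm : 0 < m) (hD : 0 < D) (hmD : Nat.Coprime m D)
    (S : Finset ℕ) (hS : ∀ v ∈ S, v ∈ Icc 1 X ∧ (m : ℤ) ∣ N + (v : ℤ) - r ∧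
      (D : ℤ) ∣ N + (v : ℤ)) :
    (S.card : ℝ) ≤ (X : ℝ) / m / D + 1 := by
  rcases S.eq_empty_or_nonempty with h | ⟨v0, hv0⟩
  · rw [h]
    simp only [card_empty, Nat.cast_zero]
    positivity
  · have h1 := card_dvd_le (-(v0 : ℤ)) X (m * D) (Nat.mul_pos hm hD)
    have h2 : (S.card : ℝ) ≤ (((Icc 1 X).filter
        (fun v : ℕ => ((m * D : ℕ) : ℤ) ∣ -(v0 : ℤ) + (v : ℤ))).card : ℝ) := by
      norm_cast
      apply card_le_card
      intro v hv
      rw [mem_filter]
      obtain ⟨a1, a2, a3⟩ := hS v hv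
      obtain ⟨b1, b2, b3⟩ := hS v0 hv0
      refine ⟨a1, ?_⟩
      push_cast
      apply IsCoprime.mul_dvd
      · exact_mod_cast Nat.Coprime.isCoprime hmD
      · have := dvd_sub a2 b2
        have e : N + (v : ℤ) - r - (N + (v0 : ℤ) - r) = -(v0 : ℤ) + v := by ring
        rwa [e] at this
      · have := dvd_sub a3 b3
        have e : N + (v : ℤ) - (N + (v0 : ℤ)) = -(v0 : ℤ) + v := by ring
        rwa [e] at this
    refine h2.trans (h1.trans ?_)
    push_cast
    rw [div_div]

theorem avhr : Pool.Agent.W307.FK.AVHR := by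
  intro c z B hz
  have hsq : Summable (fun n : ℕ => 1 / (n : ℝ) ^ 2) := Real.summable_one_div_nat_pow.2 (by norm_num)
  set S2 : ℝ := ∑' n : ℕ, 1 / (n : ℝ) ^ 2 with hS2
  set K : ℕ := 4 * c + 4 with hK
  refine ⟨2 ^ ((B + 2) * K) * (Real.exp (2 * c * S2) + 2 ^ (2 * c)), by positivity, ?_⟩
  intro N r X m hX hN hm hmX
  set Y : ℕ := Nat.findGreatest (fun n => n ^ K ≤ X) X with hYdef
  have hYX : Y ^ K ≤ X := by
    have := Nat.findGreatest_spec (P := fun n => n ^ K ≤ X) (m := 1) (n := X) hX
      (by rw [one_pow]; exact hX)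
    exact this
  have hY1 : 1 ≤ Y := Nat.le_findGreatest hX (by rw [one_pow]; exact hX)
  have hYgt : ∀ p, Y < p → X < p ^ K := by
    intro p hp
    by_contra hcon
    rw [not_lt] at hcon
    have h1 : p ≤ p ^ K := Nat.le_self_pow (by omega) p
    have h2 : p ≤ Y := Nat.le_findGreatest (h1.trans hcon) hcon
    omega
  set Pr : Finset ℕ := (Icc 1 Y).filter (fun p => p.Prime ∧ (z < p ∧ ¬ p ∣ m)) with hPr
  set g : ℕ → ℝ := fun p => (c : ℝ) / ((p : ℝ) - c) with hg
  have hbig : ∀ p : ℕ, z < p → (p : ℝ) / 2 ≤ (p : ℝ) - c ∧ 0 < (p : ℝ) := by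
    intro p hp
    have h1 : 2 * c + 2 < p := lt_of_le_of_lt hz hp
    have h2 : 2 * (c : ℝ) + 2 < p := by exact_mod_cast h1
    have h3 : (0 : ℝ) ≤ c := Nat.cast_nonneg c
    exact ⟨by linarith, by linarith⟩
  have hpc : ∀ p ∈ Pr, (p : ℝ) / 2 ≤ (p : ℝ) - c ∧ 0 < (p : ℝ) := by
    intro p hp
    rw [hPr, mem_filter] at hp
    exact hbig p hp.2.2.1
  have hg0 : ∀ p ∈ Pr, 0 ≤ g p := by
    intro p hp
    have := hpc p hp
    exact div_nonneg (Nat.cast_nonneg c) (by linarith)
  -- splitting
  have hsplit : ∀ v ∈ (Icc 1 X).filter (fun v : ℕ => (m : ℤ) ∣ N + (v : ℤ) - r),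
      ∏ p ∈ (N + (v : ℤ)).natAbs.primeFactors.filter (fun p => z < p ∧ ¬ p ∣ m),
        (p : ℝ) / ((p : ℝ) - c) ≤
        2 ^ ((B + 2) * K) * ∑ T ∈ Pr.powerset,
          if T ⊆ (N + (v : ℤ)).natAbs.primeFactors.filter (fun p => z < p ∧ ¬ p ∣ m) then
            ∏ p ∈ T, g p
          else 0 := by
    intro v hv
    rw [mem_filter, mem_Icc] at hv
    replace hv := hv.1
    set w : ℕ := (N + (v : ℤ)).natAbs with hw
    set A := w.primeFactors.filter (fun p => z < p ∧ ¬ p ∣ m) with hA
    -- small part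
    have hsmall : ∏ p ∈ A.filter (fun p => ¬ Y < p), (p : ℝ) / ((p : ℝ) - c) =
        ∑ T ∈ Pr.powerset, if T ⊆ A then ∏ p ∈ T, g p else 0 := by
      have hsub : A.filter (fun p => ¬ Y < p) ⊆ Pr := by
        intro p hp
        rw [mem_filter, hA, mem_filter, Nat.mem_primeFactors] at hp
        rw [hPr, mem_filter, mem_Icc]
        exact ⟨⟨hp.1.1.1.one_le, by omega⟩, hp.1.1.1, hp.1.2⟩
      have h1 : ∏ p ∈ A.filter (fun p => ¬ Y < p), (p : ℝ) / ((p : ℝ) - c)
          = ∏ p ∈ A.filter (fun p => ¬ Y < p), (1 + g p) := by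
        apply prod_congr rfl
        intro p hp
        have h2 := hpc p (hsub hp)
        have h3 : (p : ℝ) - c ≠ 0 := by
          have := h2.1
          have := h2.2
          linarith
        simp only [hg]
        field_simp
        ring
      rw [h1, prod_one_add, ← sum_filter]
      apply sum_congr _ (fun _ _ => rfl)
      ext T
      simp only [mem_powerset, mem_filter]
      constructor
      · intro h
        exact ⟨h.trans hsub, h.trans (filter_subset _ _)⟩
      · rintro ⟨h2, h3⟩ p hp
        rw [mem_filter]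
        refine ⟨h3 hp, ?_⟩
        have := h2 hp
        rw [hPr, mem_filter, mem_Icc] at this
        omega
    have hsmall0 : 0 ≤ ∏ p ∈ A.filter (fun p => ¬ Y < p), (p : ℝ) / ((p : ℝ) - c) := by
      apply prod_nonneg
      intro p hp
      rw [mem_filter, hA, mem_filter] at hp
      have := hbig p hp.1.2.1
      exact div_nonneg this.2.le (by linarith)
    have hlarge : ∏ p ∈ A.filter (fun p => Y < p), (p : ℝ) / ((p : ℝ) - c) ≤
        2 ^ ((B + 2) * K) := by
      have hcard : (A.filter (fun p => Y < p)).card ≤ (B + 2) * K := by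
        by_cases hw0 : w = 0
        · rw [hA, hw0]
          simp
        · have e1 : A.filter (fun p => Y < p) ⊆
              w.primeFactors.filter (fun p => z < p ∧ Y < p) := by
            intro p hp
            rw [hA, mem_filter, mem_filter] at hp
            rw [mem_filter]
            exact ⟨hp.1.1, hp.1.2.1, hp.2⟩
          refine (card_le_card e1).trans ?_
          refine card_large w X Y K B z hX hw0 ?_ hYgt
          have e2 : w ≤ N.natAbs + (v : ℤ).natAbs := Int.natAbs_add_le _ _
          have e3 : (v : ℤ).natAbs = v := Int.natAbs_natCast v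
          omega
      calc ∏ p ∈ A.filter (fun p => Y < p), (p : ℝ) / ((p : ℝ) - c)
          ≤ ∏ _p ∈ A.filter (fun p => Y < p), (2 : ℝ) := by
            apply prod_le_prod
            · intro p hp
              rw [mem_filter, hA, mem_filter] at hp
              have := hbig p hp.1.2.1
              exact div_nonneg this.2.le (by linarith)
            · intro p hp
              rw [mem_filter, hA, mem_filter] at hp
              have := hbig p hp.1.2.1
              rw [div_le_iff₀ (by linarith)]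
              linarith
        _ = 2 ^ (A.filter (fun p => Y < p)).card := by rw [prod_const]
        _ ≤ 2 ^ ((B + 2) * K) := pow_le_pow_right₀ (by norm_num) hcard
    rw [← hsmall, ← prod_filter_mul_prod_filter_not A (fun p => Y < p)]
    exact mul_le_mul_of_nonneg_right hlarge hsmall0
  refine (sum_le_sum hsplit).trans ?_
  rw [← mul_sum, mul_assoc]
  apply mul_le_mul_of_nonneg_left _ (by positivity)
  rw [sum_comm]
  have hm0 : (0 : ℝ) < m := by exact_mod_cast hm
  -- each subset
  have hT : ∀ T ∈ Pr.powerset,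
      (∑ v ∈ (Icc 1 X).filter (fun v : ℕ => (m : ℤ) ∣ N + (v : ℤ) - r),
      if T ⊆ (N + (v : ℤ)).natAbs.primeFactors.filter (fun p => z < p ∧ ¬ p ∣ m) then
        ∏ p ∈ T, g p else 0)
      ≤ (X / m : ℝ) * ∏ p ∈ T, (g p / p) + ∏ p ∈ T, g p := by
    intro T hT
    rw [mem_powerset] at hT
    rw [← sum_filter, sum_const, nsmul_eq_mul]
    have hG0 : 0 ≤ ∏ p ∈ T, g p := prod_nonneg fun p hp => hg0 p (hT hp)
    have hne : ∏ p ∈ T, p ≠ 0 := by
      apply prod_ne_zero_iff.2
      intro p hp
      have := (mem_filter.1 (hT hp)).2.1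
      exact this.ne_zero
    have hcop : Nat.Coprime m (∏ p ∈ T, p) := by
      apply Nat.Coprime.prod_right
      intro p hp
      have := (mem_filter.1 (hT hp)).2
      exact ((Nat.Prime.coprime_iff_not_dvd this.1).2 this.2.2).symm
    have hcard := card_cls N r X m (∏ p ∈ T, p) hm (Nat.pos_of_ne_zero hne) hcop
      (((Icc 1 X).filter (fun v : ℕ => (m : ℤ) ∣ N + (v : ℤ) - r)).filter
        (fun v : ℕ => T ⊆
          (N + (v : ℤ)).natAbs.primeFactors.filter (fun p => z < p ∧ ¬ p ∣ m))) (by
        intro v hv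
        rw [mem_filter, mem_filter] at hv
        refine ⟨hv.1.1, hv.1.2, ?_⟩
        rw [Int.natCast_dvd]
        apply prod_primes_dvd
        · intro p hp
          exact ((mem_filter.1 (hT hp)).2.1).prime
        · intro p hp
          have := hv.2 hp
          rw [mem_filter, Nat.mem_primeFactors] at this
          exact this.1.2.1)
    refine (mul_le_mul_of_nonneg_right hcard hG0).trans (le_of_eq ?_)
    have e : ∏ p ∈ T, (g p / (p : ℝ)) = (∏ p ∈ T, g p) / ∏ p ∈ T, (p : ℝ) :=
      prod_div_distrib g (fun p : ℕ => (p : ℝ))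
    rw [e]
    push_cast
    ring
  refine (sum_le_sum hT).trans ?_
  rw [sum_add_distrib, ← mul_sum, ← prod_one_add, ← prod_one_add, add_mul]
  apply add_le_add
  · rw [mul_comm]
    apply mul_le_mul_of_nonneg_right _ (by positivity)
    have hfac : ∀ p ∈ Pr, 1 + g p / p ≤ Real.exp (2 * c * (1 / (p : ℝ) ^ 2)) := by
      intro p hp
      have h2 := hpc p hp
      have h3 : g p / p ≤ 2 * c * (1 / (p : ℝ) ^ 2) := by
        simp only [hg]
        have h4 : (c : ℝ) / ((p : ℝ) - c) ≤ c / ((p : ℝ) / 2) := by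
          apply div_le_div_of_nonneg_left (Nat.cast_nonneg c) (by linarith [h2.2]) h2.1
        calc (c : ℝ) / ((p : ℝ) - c) / p ≤ c / ((p : ℝ) / 2) / p :=
              div_le_div_of_nonneg_right h4 h2.2.le
          _ = 2 * c * (1 / (p : ℝ) ^ 2) := by
              have := h2.2.ne'
              field_simp
      have h4 := Real.add_one_le_exp (2 * c * (1 / (p : ℝ) ^ 2))
      linarith
    calc ∏ p ∈ Pr, (1 + g p / p) ≤ ∏ p ∈ Pr, Real.exp (2 * c * (1 / (p : ℝ) ^ 2)) := by
          apply prod_le_prod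
          · intro p hp
            have := hg0 p hp
            have := (hpc p hp).2
            positivity
          · exact hfac
      _ = Real.exp (∑ p ∈ Pr, 2 * c * (1 / (p : ℝ) ^ 2)) := (Real.exp_sum _ _).symm
      _ ≤ Real.exp (2 * c * S2) := by
          apply Real.exp_le_exp.2
          rw [← mul_sum]
          apply mul_le_mul_of_nonneg_left _ (by positivity)
          exact hsq.sum_le_tsum Pr (fun n _ => by positivity)
  · -- the product over the small primes
    have htel : ∀ m : ℕ, ∏ n ∈ Icc 1 m, (1 + 1 / (n : ℝ)) = m + 1 := by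
      intro m
      induction m with
      | zero => simp
      | succ m ih =>
        rw [prod_Icc_succ_top (by omega), ih]
        push_cast
        have : (m : ℝ) + 1 ≠ 0 := by positivity
        field_simp
    have hfac : ∀ p ∈ Pr, 1 + g p ≤ (1 + 1 / (p : ℝ)) ^ (2 * c) := by
      intro p hp
      have h2 := hpc p hp
      have h3 : g p ≤ (2 * c : ℕ) * (1 / (p : ℝ)) := by
        simp only [hg]
        have h4 : (c : ℝ) / ((p : ℝ) - c) ≤ c / ((p : ℝ) / 2) := by
          apply div_le_div_of_nonneg_left (Nat.cast_nonneg c) (by linarith [h2.2]) h2.1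
        calc (c : ℝ) / ((p : ℝ) - c) ≤ c / ((p : ℝ) / 2) := h4
          _ = (2 * c : ℕ) * (1 / (p : ℝ)) := by
              have := h2.2.ne'
              push_cast
              field_simp
      have h4 : 1 + ((2 * c : ℕ) : ℝ) * (1 / (p : ℝ)) ≤ (1 + 1 / (p : ℝ)) ^ (2 * c) :=
        one_add_mul_le_pow (by have := h2.2; have : (0 : ℝ) < 1 / p := by positivity
                               linarith) _
      linarith
    calc ∏ p ∈ Pr, (1 + g p) ≤ ∏ p ∈ Pr, (1 + 1 / (p : ℝ)) ^ (2 * c) := by
          apply prod_le_prod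
          · intro p hp
            have := hg0 p hp
            linarith
          · exact hfac
      _ ≤ ∏ p ∈ Icc 1 Y, (1 + 1 / (p : ℝ)) ^ (2 * c) := by
          rw [← prod_filter_mul_prod_filter_not (Icc 1 Y) (fun p => p.Prime ∧ (z < p ∧ ¬ p ∣ m))]
          have h1 : (1 : ℝ) ≤ ∏ p ∈ (Icc 1 Y).filter (fun p => ¬ (p.Prime ∧ (z < p ∧ ¬ p ∣ m))),
              (1 + 1 / (p : ℝ)) ^ (2 * c) := by
            apply prod_induction _ (fun x : ℝ => 1 ≤ x)
              (fun a b ha hb => one_le_mul_of_one_le_of_one_le ha hb) le_rfl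
            intro p _
            apply one_le_pow₀
            have : (0 : ℝ) ≤ 1 / (p : ℝ) := by positivity
            linarith
          have h2 : (0 : ℝ) ≤ ∏ p ∈ (Icc 1 Y).filter (fun p => p.Prime ∧ (z < p ∧ ¬ p ∣ m)),
              (1 + 1 / (p : ℝ)) ^ (2 * c) := prod_nonneg fun p _ => by positivity
          exact le_mul_of_one_le_right h2 h1
      _ = ((Y : ℝ) + 1) ^ (2 * c) := by rw [prod_pow, htel]
      _ ≤ (2 * (Y : ℝ)) ^ (2 * c) := by
          have : (1 : ℝ) ≤ Y := by exact_mod_cast hY1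
          gcongr
          linarith
      _ = 2 ^ (2 * c) * (Y : ℝ) ^ (2 * c) := mul_pow _ _ _
      _ ≤ 2 ^ (2 * c) * (X / m) := by
          apply mul_le_mul_of_nonneg_left _ (by positivity)
          rw [le_div_iff₀ hm0]
          have e1 : (Y ^ (2 * c) * m) ^ 4 ≤ X ^ 4 := by
            calc (Y ^ (2 * c) * m) ^ 4 = Y ^ (8 * c) * m ^ 4 := by ring
              _ ≤ Y ^ (K * 2) * X :=
                Nat.mul_le_mul (Nat.pow_le_pow_right hY1 (by omega)) hmX
              _ = (Y ^ K) ^ 2 * X := by rw [pow_mul]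
              _ ≤ X ^ 2 * X := Nat.mul_le_mul_right _ (Nat.pow_le_pow_left hYX 2)
              _ = X ^ 3 := by ring
              _ ≤ X ^ 4 := Nat.pow_le_pow_right hX (by omega)
          have e2 : Y ^ (2 * c) * m ≤ X := (Nat.pow_le_pow_iff_left (by norm_num)).1 e1
          exact_mod_cast e2

end Pool.Agent.W991.FK
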